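import Mathlib

namespace Pool.Agent.Results.MP_fc8d4d_co.Counter
open SimpleGraph

/-- The colour code of `v`: its distances to the colour classes. -/
noncomputable def code {V : Type} (G : SimpleGraph V) {k : ℕ} (c : V → Fin k) (v : V) (j : Fin k) :
    ℕ := sInf {d | ∃ u, c u = j ∧ G.dist v u = d}

/-- The locating chromatic number. -/
noncomputable def chiL {V : Type} (G : SimpleGraph V) : ℕ :=
  sInf {k | ∃ c : V → Fin k, Function.Surjective c ∧ (∀ u v, G.Adj u v → c u ≠ c v) ∧
    Function.Injective (code G c)}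

lemma zero {V : Type} {G : SimpleGraph V} (hG : G.Connected) {k : ℕ} {c : V → Fin k}
    (hc : Function.Surjective c) (v : V) (j : Fin k) : code G c v j = 0 ↔ c v = j := by
  constructor
  · intro h
    obtain ⟨u, hu⟩ := hc j
    obtain ⟨w, hw, e⟩ := Nat.sInf_mem (s := {d | ∃ u, c u = j ∧ G.dist v u = d}) ⟨_, u, hu, rfl⟩
    rw [hG.dist_eq_zero_iff.1 (e.trans h), hw]
  · intro h
    exact Nat.eq_zero_of_le_zero (Nat.sInf_le ⟨v, h, dist_self⟩)

lemma low {V : Type} [Fintype V] {G : SimpleGraph V} (hG : G.Connected)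
    (h4 : ∀ u v, G.dist u v ≤ 4) : Fintype.card V ≤ chiL G * 4 ^ chiL G := by
  obtain ⟨c, h1, -, h3⟩ := Nat.sInf_mem (s := {k | ∃ c : V → Fin k, Function.Surjective c ∧
      (∀ u v, G.Adj u v → c u ≠ c v) ∧ Function.Injective (code G c)})
    ⟨_, Fintype.equivFin V, (Equiv.surjective _), fun u v h e => h.ne ((Equiv.injective _) e),
      fun u v e => (Equiv.injective _) ((zero hG (Equiv.surjective _) u _).1
        (e ▸ (zero hG (Equiv.surjective _) v _).2 rfl))⟩
  have b : ∀ v j, code G c v j ≤ 4 := fun v j => by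
    obtain ⟨u, hu⟩ := h1 j
    exact (Nat.sInf_le (s := {d | ∃ u, c u = j ∧ G.dist v u = d}) ⟨u, hu, rfl⟩).trans (h4 v u)
  have := Fintype.card_le_of_injective
    (fun v => (c v, fun j => (⟨code G c v j - 1, by have := b v j; omega⟩ : Fin 4))) (by
      intro u v e
      simp only [Prod.mk.injEq] at e
      apply h3
      ext j
      have q := congrFun e.2 j
      simp only [Fin.mk.injEq] at q
      have z1 := zero hG h1 u j
      have z2 := zero hG h1 v j
      rw [e.1, ← z2] at z1
      omega)
  rw [Fintype.card_prod, Fintype.card_fun, Fintype.card_fin, Fintype.card_fin] at this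
  exact this

abbrev W (k : ℕ) := Option (Σ i : Fin k, ({j // j ≠ i} → Bool))

def R {k : ℕ} : W k → W k → Prop
  | none, none => False
  | some a, some b => ∃ h : a.1 ≠ b.1, a.2 ⟨b.1, h.symm⟩ = true ∧ b.2 ⟨a.1, h⟩ = true
  | _, _ => True

def X (k : ℕ) : SimpleGraph (W k) where
  Adj := R
  symm := ⟨by
    rintro (_ | a) (_ | b) h
    · exact h
    · trivial
    · trivial
    · obtain ⟨h, p, q⟩ := h; exact ⟨h.symm, q, p⟩⟩
  loopless := ⟨by
    rintro (_ | a) h
    · exact h
    · exact h.1 rfl⟩

lemma d1 {k : ℕ} (v : W k) : (X k).Reachable none v ∧ (X k).dist none v ≤ 1 := by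
  cases v with
  | none => simp
  | some a =>
    have : (X k).Adj none (some a) := trivial
    exact ⟨this.reachable, (dist_eq_one_iff_adj.2 this).le⟩

lemma con (k : ℕ) : (X k).Connected := ⟨fun u v => (d1 u).1.symm.trans (d1 v).1⟩

lemma d2 {k : ℕ} (u v : W k) : (X k).dist u v ≤ 2 := by
  have := (con k).dist_triangle (u := u) (v := none) (w := v)
  have a := (d1 u).2
  have b := (d1 v).2
  rw [dist_comm] at a
  omega

def col {k : ℕ} : W k → Fin (k + 1)
  | none => 0
  | some a => a.1.succ

lemma up (k : ℕ) : chiL (X k) ≤ k + 1 := by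
  have sj : Function.Surjective (col (k := k)) := fun j => by
    refine Fin.cases ⟨none, rfl⟩ (fun i => ⟨some ⟨i, fun _ => true⟩, rfl⟩) j
  have one : ∀ (i : Fin k) (f : {j // j ≠ i} → Bool) (j : {j // j ≠ i}),
      code (X k) col (some ⟨i, f⟩) j.1.succ = 1 ↔ f j = true := by
    intro i f j
    constructor
    · intro h
      obtain ⟨u, hu⟩ := sj j.1.succ
      obtain ⟨w, hw, e⟩ := Nat.sInf_mem
        (s := {d | ∃ u, col u = j.1.succ ∧ (X k).dist (some ⟨i, f⟩) u = d}) ⟨_, u, hu, rfl⟩
      have a := dist_eq_one_iff_adj.1 (e.trans h)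
      cases w with
      | none => exact absurd hw.symm (Fin.succ_ne_zero _)
      | some b =>
        obtain ⟨j, hj⟩ := j
        obtain rfl : b.1 = j := Fin.succ_injective _ hw
        exact a.2.1
    · intro h
      have a : (X k).Adj (some ⟨i, f⟩) (some ⟨j.1, fun _ => true⟩) := ⟨j.2.symm, h, rfl⟩
      have b : code (X k) col (some ⟨i, f⟩) j.1.succ ≤ 1 :=
        Nat.sInf_le ⟨_, rfl, dist_eq_one_iff_adj.2 a⟩
      have z := (zero (con k) sj (some ⟨i, f⟩) j.1.succ).not.2
        fun e => j.2 (Fin.succ_injective _ e).symm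
      omega
  refine Nat.sInf_le ⟨col, sj, ?_, fun u v e => ?_⟩
  · rintro (_ | a) (_ | b) h e
    · exact h
    · exact Fin.succ_ne_zero _ e.symm
    · exact Fin.succ_ne_zero _ e
    · exact h.1 (Fin.succ_injective _ e)
  · have q : col u = col v := (zero (con k) sj u _).1 (e ▸ (zero (con k) sj v _).2 rfl)
    rcases u with _ | ⟨i, f⟩ <;> rcases v with _ | ⟨i', g⟩
    · rfl
    · exact absurd q.symm (Fin.succ_ne_zero _)
    · exact absurd q (Fin.succ_ne_zero _)
    · obtain rfl : i = i' := Fin.succ_injective _ q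
      have : f = g := funext fun j => by
        have := one i f j
        rw [e, one] at this
        exact Bool.eq_iff_iff.2 this.symm
      rw [this]

theorem result : ¬ ∀ (V W : Type) [Finite V] [Finite W] (G : SimpleGraph V) (H : SimpleGraph W),
    G.Connected → H.Connected → chiL (G □ H) ≤ max (chiL G) (chiL H) + 3 := by
  intro h
  have a := h _ _ (X 1030) (X 1030) (con _) (con _)
  have b := up 1030
  have hc := (con 1030).boxProd (con 1030)
  have c := low hc fun u v => by
    have e1 : (X 1030 □ X 1030).dist u (v.1, u.2) ≤ 2 := by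
      obtain ⟨p, hp⟩ := (con 1030).exists_walk_length_eq_dist u.1 v.1
      have := dist_le (p.boxProdLeft (X 1030) u.2)
      exact this.trans ((Walk.length_map _ p).trans_le (hp.trans_le (d2 _ _)))
    have e2 : (X 1030 □ X 1030).dist (v.1, u.2) v ≤ 2 := by
      obtain ⟨p, hp⟩ := (con 1030).exists_walk_length_eq_dist u.2 v.2
      have := dist_le (p.boxProdRight (X 1030) v.1)
      exact this.trans ((Walk.length_map _ p).trans_le (hp.trans_le (d2 _ _)))
    have := hc.dist_triangle (u := u) (v := (v.1, u.2)) (w := v)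
    omega
  have n : Fintype.card (W 1030) = 1030 * 2 ^ 1029 + 1 := by
    simp only [Fintype.card_option, Fintype.card_sigma, Fintype.card_fun, Fintype.card_bool,
      Fintype.card_subtype_compl, Fintype.card_fin, Fintype.card_unique, Finset.sum_const,
      Finset.card_univ, smul_eq_mul]
  rw [Fintype.card_prod, n] at c
  have m : chiL (X 1030 □ X 1030) ≤ 1034 := by omega
  have := c.trans (Nat.mul_le_mul m (Nat.pow_le_pow_right (by omega) m))
  revert this
  decide +kernel

end Pool.Agent.Results.MP_fc8d4d_co.Counter
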